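import Mathlib

/-!
# Failure of a Trudinger-Moser inequality with a weakly coercive remainder term

On the unit disc choose disjoint discs `D_j = D (c_j, R_j)` accumulating only at a boundary point
and masses `m_j` going to zero. The potential is `V = m_j q_j / (3 + m_j L_j)` on `D_j`, with
`L_j = log ((|x - c_j|² + 32) / (|x - c_j|² + ε_j²)) / 2` and `q_j = 2 ε_j² / (|x - c_j|² + ε_j²)²`
the concentrated part of `- Δ L_j`. The superharmonic functions `L_0 + ∑ m_i L_i` show weak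
coercivity. The test functions are `t ζ_j (3 + m_j L_j)` with a fixed `t` and a cutoff `ζ_j`: their
energy is bounded while they are at least `t m_j S_j` on a disc of radius `ε_j = exp (- S_j)`.
-/

set_option autoImplicit false

namespace Pool.Agent.Results.MP_ed80cb_an.DiskCounterexample

open Set Filter MeasureTheory Topology
open scoped ContDiff RealInnerProductSpace

/-- The plane. -/
abbrev E := EuclideanSpace ℝ (Fin 2)

/-- The form `Q_V`. -/
noncomputable def Q (Ω : Set E) (V : E → ℝ) (u : E → ℝ) : ℝ :=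
  (∫ x in Ω, ‖fderiv ℝ u x‖ ^ 2) - (∫ x in Ω, V x * u x ^ 2)

/-- Real test functions on `Ω`. -/
def IsTest (Ω : Set E) (u : E → ℝ) : Prop :=
  ContDiff ℝ ∞ u ∧ HasCompactSupport u ∧ tsupport u ⊆ Ω

/-- Weak coercivity of `Q_V`. -/
def WeaklyCoercive (Ω : Set E) (V : E → ℝ) : Prop :=
  ∃ A : Set E, A.Nonempty ∧ IsOpen A ∧ IsCompact (closure A) ∧ closure A ⊆ Ω ∧
    ∃ δ : ℝ, 0 < δ ∧ ∀ u, IsTest Ω u → δ * (∫ x in A, u x) ^ 2 ≤ Q Ω V u

/-- The local Kato class on `Ω`. -/
def LocalKato (Ω : Set E) (V : E → ℝ) : Prop :=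
  Measurable V ∧ ∀ K ⊆ Ω, IsCompact K →
    Tendsto (fun r : ℝ => ⨆ x : E, ∫⁻ y in K ∩ Metric.ball x r,
      ENNReal.ofReal (Real.log (1 / ‖x - y‖) * |V y|)) (𝓝[>] 0) (𝓝 0)

/-- The standard basis. -/
noncomputable def e (i : Fin 2) : E := EuclideanSpace.single i 1

/-- The Laplacian. -/
noncomputable def lap (Φ : E → ℝ) (x : E) : ℝ :=
  ∑ i, fderiv ℝ (fun y => fderiv ℝ Φ y (e i)) x (e i)

theorem norm_fderiv_sq (u : E → ℝ) (x : E) :
    ‖fderiv ℝ u x‖ ^ 2 = ∑ i, (fderiv ℝ u x (e i)) ^ 2 := by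
  have h1 : ‖fderiv ℝ u x‖ = ‖(InnerProductSpace.toDual ℝ E).symm (fderiv ℝ u x)‖ :=
    ((InnerProductSpace.toDual ℝ E).symm.norm_map _).symm
  rw [h1, EuclideanSpace.norm_sq_eq]
  refine Finset.sum_congr rfl fun i _ => ?_
  have h2 : ((InnerProductSpace.toDual ℝ E).symm (fderiv ℝ u x)) i = fderiv ℝ u x (e i) := by
    rw [← InnerProductSpace.toDual_symm_apply, e, EuclideanSpace.inner_single_right]
    simp
  rw [h2, Real.norm_eq_abs, sq_abs]

theorem quot_partial {f g : E → ℝ} {f' g' : E →L[ℝ] ℝ} {x : E} (hf : HasFDerivAt f f' x)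
    (hg : HasFDerivAt g g' x) (h0 : g x ≠ 0) (v : E) :
    fderiv ℝ (fun y => f y / g y) x v = (f' v * g x - f x * g' v) / g x ^ 2 := by
  have hinv := (hasDerivAt_inv h0).comp_hasFDerivAt x hg
  have h := hf.mul hinv
  have h2 : HasFDerivAt (fun y => f y / g y) _ x := h
  rw [h2.fderiv]
  simp
  field_simp
  ring

theorem continuous_partial {u : E → ℝ} (hu : ContDiff ℝ 1 u) (v : E) :
    Continuous fun x => fderiv ℝ u x v :=
  (hu.continuous_fderiv one_ne_zero).clm_apply continuous_const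

theorem contDiff_partial {u : E → ℝ} (hu : ContDiff ℝ 2 u) (v : E) :
    ContDiff ℝ 1 fun x => fderiv ℝ u x v :=
  (hu.fderiv_right (m := 1) (by norm_num)).clm_apply contDiff_const

theorem hasCompactSupport_partial {u : E → ℝ} (hu : HasCompactSupport u) (v : E) :
    HasCompactSupport fun x => fderiv ℝ u x v :=
  hu.fderiv_apply ℝ v

/-- Integration by parts. -/
theorem ibp {f Φ : E → ℝ} (hf : ContDiff ℝ 1 f) (hfc : HasCompactSupport f)
    (hΦ : ContDiff ℝ 2 Φ) :
    ∫ x, ∑ i, fderiv ℝ f x (e i) * fderiv ℝ Φ x (e i) = - ∫ x, f x * lap Φ x := by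
  have hΦ1 : ContDiff ℝ 1 Φ := hΦ.of_le (by norm_num)
  have key : ∀ i : Fin 2, ∫ x, fderiv ℝ f x (e i) * fderiv ℝ Φ x (e i) =
      - ∫ x, f x * fderiv ℝ (fun y => fderiv ℝ Φ y (e i)) x (e i) := by
    intro i
    have hp := contDiff_partial hΦ (e i)
    have h := integral_mul_fderiv_eq_neg_fderiv_mul_of_integrable (μ := (volume : Measure E))
      (f := f) (g := fun y => fderiv ℝ Φ y (e i)) (v := e i)
      (((continuous_partial hf (e i)).mul hp.continuous).integrable_of_hasCompactSupport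
        (hasCompactSupport_partial hfc (e i)).mul_right)
      ((hf.continuous.mul (continuous_partial hp (e i))).integrable_of_hasCompactSupport
        hfc.mul_right)
      ((hf.continuous.mul hp.continuous).integrable_of_hasCompactSupport hfc.mul_right)
      (fun x _ => (hf.differentiable one_ne_zero) x)
      (fun x _ => (hp.differentiable one_ne_zero) x)
    rw [h, neg_neg]
  rw [integral_finsetSum]
  · rw [Finset.sum_congr rfl fun i _ => key i, Finset.sum_neg_distrib, ← integral_finsetSum]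
    · congr 1
      refine integral_congr_ae (Eventually.of_forall fun x => ?_)
      dsimp only
      rw [lap, Finset.mul_sum]
    · intro i _
      exact (hf.continuous.mul (continuous_partial (contDiff_partial hΦ (e i))
        (e i))).integrable_of_hasCompactSupport hfc.mul_right
  · intro i _
    exact ((continuous_partial hf (e i)).mul (continuous_partial hΦ1
      (e i))).integrable_of_hasCompactSupport (hasCompactSupport_partial hfc (e i)).mul_right

theorem continuous_lap {Φ : E → ℝ} (hΦ : ContDiff ℝ 2 Φ) : Continuous (lap Φ) := by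
  unfold lap
  exact continuous_finsetSum _ fun i _ => continuous_partial (contDiff_partial hΦ (e i)) (e i)

/-- The ground state inequality. -/
theorem ground_state {u Φ : E → ℝ} (hu : ContDiff ℝ 1 u) (huc : HasCompactSupport u)
    (hΦ : ContDiff ℝ 2 Φ) (hpos : ∀ x, 0 < Φ x) :
    ∫ x, (-lap Φ x / Φ x) * u x ^ 2 ≤ ∫ x, ‖fderiv ℝ u x‖ ^ 2 := by
  have hΦ1 : ContDiff ℝ 1 Φ := hΦ.of_le (by norm_num)
  set f : E → ℝ := fun x => u x ^ 2 / Φ x with hf
  have hfd : ContDiff ℝ 1 f := (hu.pow 2).div hΦ1 fun x => (hpos x).ne'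
  have hfc : HasCompactSupport f := by
    refine huc.mono' fun x hx => subset_closure ?_
    intro h0
    apply hx
    simp [hf, h0]
  have h1 := ibp hfd hfc hΦ
  have h2 : ∀ x, ∑ i, fderiv ℝ f x (e i) * fderiv ℝ Φ x (e i) ≤ ‖fderiv ℝ u x‖ ^ 2 := by
    intro x
    rw [norm_fderiv_sq]
    refine Finset.sum_le_sum fun i _ => ?_
    have hud : HasFDerivAt u (fderiv ℝ u x) x := (hu.differentiable one_ne_zero x).hasFDerivAt
    have hΦd : HasFDerivAt Φ (fderiv ℝ Φ x) x := (hΦ1.differentiable one_ne_zero x).hasFDerivAt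
    have hfe : fderiv ℝ f x (e i) = (2 * u x * fderiv ℝ u x (e i) * Φ x -
        u x ^ 2 * fderiv ℝ Φ x (e i)) / Φ x ^ 2 := by
      rw [hf, quot_partial (hud.pow 2) hΦd (hpos x).ne' (e i)]
      simp
    rw [hfe]
    have hp := hpos x
    rw [div_mul_eq_mul_div, div_le_iff₀ (by positivity)]
    nlinarith [sq_nonneg (fderiv ℝ u x (e i) * Φ x - u x * fderiv ℝ Φ x (e i))]
  have h3 : ∫ x, ∑ i, fderiv ℝ f x (e i) * fderiv ℝ Φ x (e i) ≤ ∫ x, ‖fderiv ℝ u x‖ ^ 2 := by
    refine integral_mono ?_ ?_ h2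
    · refine Continuous.integrable_of_hasCompactSupport ?_ ?_
      · exact continuous_finsetSum _ fun i _ =>
          (continuous_partial hfd (e i)).mul (continuous_partial hΦ1 (e i))
      · refine (hfc.fderiv (𝕜 := ℝ)).mono' fun x hx => subset_closure ?_
        intro h0
        apply hx
        simp [h0]
    · refine Continuous.integrable_of_hasCompactSupport
        ((hu.continuous_fderiv one_ne_zero).norm.pow 2) ?_
      refine (huc.fderiv (𝕜 := ℝ)).mono' fun x hx => subset_closure ?_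
      intro h0
      apply hx
      simp [h0]
  rw [h1] at h3
  refine le_trans (le_of_eq ?_) h3
  rw [← integral_neg]
  refine integral_congr_ae (Eventually.of_forall fun x => ?_)
  simp only [hf]
  ring

/-- Energy of a product. -/
theorem energy_mul {ζ Ψ : E → ℝ} (hζ : ContDiff ℝ 1 ζ) (hζc : HasCompactSupport ζ)
    (hΨ : ContDiff ℝ 2 Ψ) :
    ∫ x, ‖fderiv ℝ (fun y => ζ y * Ψ y) x‖ ^ 2 =
      (∫ x, Ψ x ^ 2 * ‖fderiv ℝ ζ x‖ ^ 2) - (∫ x, ζ x ^ 2 * Ψ x * lap Ψ x) := by
  have hΨ1 : ContDiff ℝ 1 Ψ := hΨ.of_le (by norm_num)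
  set f : E → ℝ := fun x => ζ x ^ 2 * Ψ x with hf
  have hfd : ContDiff ℝ 1 f := (hζ.pow 2).mul hΨ1
  have hfc : HasCompactSupport f := by
    refine hζc.mono' fun x hx => subset_closure ?_
    intro h0
    apply hx
    simp [hf, h0]
  have h1 := ibp hfd hfc hΨ
  have h2 : ∀ x, ‖fderiv ℝ (fun y => ζ y * Ψ y) x‖ ^ 2 =
      Ψ x ^ 2 * ‖fderiv ℝ ζ x‖ ^ 2 + ∑ i, fderiv ℝ f x (e i) * fderiv ℝ Ψ x (e i) := by
    intro x
    rw [norm_fderiv_sq, norm_fderiv_sq, Finset.mul_sum, ← Finset.sum_add_distrib]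
    refine Finset.sum_congr rfl fun i _ => ?_
    have hud : HasFDerivAt ζ (fderiv ℝ ζ x) x := (hζ.differentiable one_ne_zero x).hasFDerivAt
    have hΦd : HasFDerivAt Ψ (fderiv ℝ Ψ x) x := (hΨ1.differentiable one_ne_zero x).hasFDerivAt
    have hd := (hud.pow 2).fun_mul hΦd
    have hd2 := hud.fun_mul hΦd
    have e1 : fderiv ℝ f x (e i) = ζ x ^ 2 * fderiv ℝ Ψ x (e i) +
        2 * ζ x * fderiv ℝ ζ x (e i) * Ψ x := by
      rw [hd.fderiv]
      simp
      ring
    rw [hd2.fderiv, e1]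
    simp
    ring
  have i1 : Integrable (fun x => Ψ x ^ 2 * ‖fderiv ℝ ζ x‖ ^ 2) := by
    refine Continuous.integrable_of_hasCompactSupport
      ((hΨ1.continuous.pow 2).mul ((hζ.continuous_fderiv one_ne_zero).norm.pow 2)) ?_
    refine (hζc.fderiv (𝕜 := ℝ)).mono' fun x hx => subset_closure ?_
    intro h0
    apply hx
    simp [h0]
  have i2 : Integrable (fun x => ∑ i, fderiv ℝ f x (e i) * fderiv ℝ Ψ x (e i)) := by
    refine Continuous.integrable_of_hasCompactSupport ?_ ?_
    · exact continuous_finsetSum _ fun i _ =>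
        (continuous_partial hfd (e i)).mul (continuous_partial hΨ1 (e i))
    · refine (hfc.fderiv (𝕜 := ℝ)).mono' fun x hx => subset_closure ?_
      intro h0
      apply hx
      simp [h0]
  simp_rw [h2]
  rw [integral_add i1 i2, h1]
  rfl

/-- The regularised logarithmic potential. -/
noncomputable def ell (c : E) (a : ℝ) (x : E) : ℝ := 1 / 2 * Real.log (‖x - c‖ ^ 2 + a)

theorem ell_contDiff (c : E) {a : ℝ} (ha : 0 < a) : ContDiff ℝ 2 (ell c a) := by
  unfold ell
  refine contDiff_const.mul (ContDiff.log ?_ fun x => by positivity)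
  exact ((contDiff_id.sub contDiff_const).norm_sq ℝ).add contDiff_const

theorem hasFDerivAt_normsq (c : E) (a : ℝ) (x : E) :
    HasFDerivAt (fun x : E => ‖x - c‖ ^ 2 + a) (2 • (innerSL ℝ (x - c))) x := by
  have h := ((hasStrictFDerivAt_norm_sq (x - c)).hasFDerivAt.comp x
    ((hasFDerivAt_id x).sub_const c)).add_const a
  exact h.congr_fderiv (by ext v; simp)

theorem ell_partial (c : E) {a : ℝ} (ha : 0 < a) (i : Fin 2) (x : E) :
    fderiv ℝ (ell c a) x (e i) = (x i - c i) / (‖x - c‖ ^ 2 + a) := by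
  have hpos : 0 < ‖x - c‖ ^ 2 + a := by positivity
  have h := ((hasFDerivAt_normsq c a x).log hpos.ne').const_mul (1 / 2 : ℝ)
  have h2 : HasFDerivAt (ell c a) _ x := h
  rw [h2.fderiv]
  have h3 : ⟪x - c, e i⟫ = x i - c i := by
    rw [e, EuclideanSpace.inner_single_right]
    simp
  simp only [smul_apply, innerSL_apply_apply, h3, smul_eq_mul, nsmul_eq_mul]
  field_simp
  norm_num

theorem lap_ell (c : E) {a : ℝ} (ha : 0 < a) (x : E) :
    lap (ell c a) x = 2 * a / (‖x - c‖ ^ 2 + a) ^ 2 := by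
  have hpos : 0 < ‖x - c‖ ^ 2 + a := by positivity
  unfold lap
  have key : ∀ i : Fin 2, fderiv ℝ (fun y => fderiv ℝ (ell c a) y (e i)) x (e i) =
      1 / (‖x - c‖ ^ 2 + a) - 2 * (x i - c i) ^ 2 / (‖x - c‖ ^ 2 + a) ^ 2 := by
    intro i
    have h1 : (fun y => fderiv ℝ (ell c a) y (e i)) =
        fun y : E => (y i - c i) / (‖y - c‖ ^ 2 + a) := by
      funext y
      exact ell_partial c ha i y
    rw [h1]
    have h2 : HasFDerivAt (fun y : E => y i - c i) (EuclideanSpace.proj i : E →L[ℝ] ℝ) x :=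
      ((EuclideanSpace.proj i : E →L[ℝ] ℝ).hasFDerivAt).sub_const _
    rw [quot_partial h2 (hasFDerivAt_normsq c a x) hpos.ne' (e i)]
    have h4 : ⟪x - c, e i⟫ = x i - c i := by
      rw [e, EuclideanSpace.inner_single_right]
      simp
    have h5 : (EuclideanSpace.proj i : E →L[ℝ] ℝ) (e i) = 1 := by
      simp [e]
    simp only [smul_apply, innerSL_apply_apply, h4, h5, nsmul_eq_mul]
    field_simp
    norm_num
  simp_rw [key]
  rw [Finset.sum_sub_distrib, ← Finset.sum_div, ← Finset.sum_div, ← Finset.mul_sum]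
  have h6 : ∑ i, (x i - c i) ^ 2 = ‖x - c‖ ^ 2 := by
    rw [EuclideanSpace.norm_sq_eq]
    refine Finset.sum_congr rfl fun i _ => ?_
    rw [Real.norm_eq_abs, sq_abs]
    rfl
  rw [h6]
  simp
  field_simp
  ring

theorem lap_lin {f g : E → ℝ} (hf : ContDiff ℝ 2 f) (hg : ContDiff ℝ 2 g) (k a b : ℝ) (x : E) :
    lap (fun y => k + a * f y + b * g y) x = a * lap f x + b * lap g x := by
  have hf1 : ContDiff ℝ 1 f := hf.of_le (by norm_num)
  have hg1 : ContDiff ℝ 1 g := hg.of_le (by norm_num)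
  have key : ∀ {f g : E → ℝ}, ContDiff ℝ 1 f → ContDiff ℝ 1 g → ∀ (k a b : ℝ) (v y : E),
      fderiv ℝ (fun y => k + a * f y + b * g y) y v =
        a * fderiv ℝ f y v + b * fderiv ℝ g y v := by
    intro f g hf hg k a b v y
    have h1 := ((hf.differentiable one_ne_zero y).hasFDerivAt.const_mul a).const_add k
    have h2 := (hg.differentiable one_ne_zero y).hasFDerivAt.const_mul b
    have h3 : HasFDerivAt (fun y => k + a * f y + b * g y) _ y := h1.add h2
    rw [h3.fderiv]
    simp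
  unfold lap
  rw [Finset.mul_sum, Finset.mul_sum, ← Finset.sum_add_distrib]
  refine Finset.sum_congr rfl fun i _ => ?_
  have e1 : (fun y => fderiv ℝ (fun y => k + a * f y + b * g y) y (e i)) =
      fun y => 0 + a * fderiv ℝ f y (e i) + b * fderiv ℝ g y (e i) := by
    funext y
    rw [key hf1 hg1]
    ring
  rw [e1, key (contDiff_partial hf (e i)) (contDiff_partial hg (e i))]

/-- The building block. -/
noncomputable def LL (c : E) (ε : ℝ) (x : E) : ℝ := 0 + 1 * ell c 32 x + (-1) * ell c (ε ^ 2) x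

theorem LL_contDiff (c : E) {ε : ℝ} (hε : 0 < ε) {n : WithTop ℕ∞} : ContDiff ℝ n (LL c ε) := by
  unfold LL ell
  have h : ∀ a : ℝ, 0 < a → ContDiff ℝ n (fun x : E => Real.log (‖x - c‖ ^ 2 + a)) := by
    intro a ha
    refine ContDiff.log ?_ fun x => by positivity
    exact ((contDiff_id.sub contDiff_const).norm_sq ℝ).add contDiff_const
  exact (contDiff_const.add (contDiff_const.mul (contDiff_const.mul (h 32 (by norm_num))))).add
    (contDiff_const.mul (contDiff_const.mul (h (ε ^ 2) (by positivity))))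

/-- The concentrated part of the Laplacian. -/
noncomputable def qq (c : E) (ε : ℝ) (x : E) : ℝ := 2 * ε ^ 2 / (‖x - c‖ ^ 2 + ε ^ 2) ^ 2

theorem qq_nonneg (c : E) (ε : ℝ) (x : E) : 0 ≤ qq c ε x := by
  unfold qq
  positivity

theorem lap_LL (c : E) {ε : ℝ} (hε : 0 < ε) (x : E) :
    lap (LL c ε) x = 64 / (‖x - c‖ ^ 2 + 32) ^ 2 - qq c ε x := by
  have h32 : (0 : ℝ) < 32 := by norm_num
  have hε2 : 0 < ε ^ 2 := by positivity
  have h := lap_lin (ell_contDiff c h32) (ell_contDiff c hε2) 0 1 (-1) x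
  have h2 : lap (LL c ε) x = 1 * lap (ell c 32) x + (-1) * lap (ell c (ε ^ 2)) x := h
  rw [h2, lap_ell c h32, lap_ell c hε2, qq]
  ring

theorem LL_pos (c : E) {ε : ℝ} (hε : 0 < ε) (hε1 : ε ≤ 1) (x : E) : 0 < LL c ε x := by
  unfold LL ell
  have : Real.log (‖x - c‖ ^ 2 + ε ^ 2) < Real.log (‖x - c‖ ^ 2 + 32) := by
    apply Real.log_lt_log (by positivity)
    nlinarith
  linarith

theorem log_two_le : Real.log 2 ≤ 1 := by
  have := Real.log_two_lt_d9
  linarith

theorem LL_le {c : E} {ε : ℝ} (hε : 0 < ε) {x : E} (hx : ‖x‖ ≤ 1) (hc : ‖c‖ ≤ 1) (k : ℕ)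
    (hk : (1 / 2 : ℝ) ^ k ≤ ‖x - c‖) : LL c ε x ≤ k + 3 := by
  unfold LL ell
  have h1 : ‖x - c‖ ≤ 2 := by
    have := norm_sub_le x c
    linarith
  have h0 : (0 : ℝ) < (1 / 2) ^ k := by positivity
  have h2 : Real.log (‖x - c‖ ^ 2 + 32) ≤ Real.log (8 ^ 2) := by
    apply Real.log_le_log (by positivity)
    nlinarith [norm_nonneg (x - c)]
  have h3 : Real.log (((1 / 2 : ℝ) ^ k) ^ 2) ≤ Real.log (‖x - c‖ ^ 2 + ε ^ 2) := by
    apply Real.log_le_log (by positivity)
    nlinarith [norm_nonneg (x - c)]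
  have h4 : Real.log ((8 : ℝ) ^ 2) = 6 * Real.log 2 := by
    rw [show (8 : ℝ) ^ 2 = 2 ^ 6 by norm_num, Real.log_pow]
    norm_num
  have h5 : Real.log (((1 / 2 : ℝ) ^ k) ^ 2) = -(2 * k * Real.log 2) := by
    rw [Real.log_pow, Real.log_pow, one_div, Real.log_inv]
    push_cast
    ring
  rw [h4] at h2
  rw [h5] at h3
  have h6 := log_two_le
  have h7 : (0 : ℝ) ≤ k := Nat.cast_nonneg k
  nlinarith

/-- The centres. -/
noncomputable def cc (j : ℕ) : E := (1 - (1 / 2 : ℝ) ^ (j + 1)) • e 0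

/-- The radii. -/
noncomputable def RR (j : ℕ) : ℝ := (1 / 2) ^ (j + 4)

/-- The masses. -/
noncomputable def mm (j : ℕ) : ℝ := (1 / 4) ^ (j + 2)

theorem RR_pos (j : ℕ) : 0 < RR j := by unfold RR; positivity

theorem mm_pos (j : ℕ) : 0 < mm j := by unfold mm; positivity

theorem norm_e (i : Fin 2) : ‖e i‖ = 1 := by simp [e]

theorem half_pow_le (j : ℕ) : (1 / 2 : ℝ) ^ j ≤ 1 :=
  pow_le_one₀ (by norm_num) (by norm_num)

theorem norm_cc (j : ℕ) : ‖cc j‖ = 1 - (1 / 2 : ℝ) ^ (j + 1) := by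
  have := half_pow_le (j + 1)
  rw [cc, norm_smul, norm_e, mul_one, Real.norm_of_nonneg (by linarith)]

theorem norm_cc_le (j : ℕ) : ‖cc j‖ ≤ 1 := by
  rw [norm_cc]
  have : (0 : ℝ) < (1 / 2) ^ (j + 1) := by positivity
  linarith

theorem norm_cc_sub {i j : ℕ} (h : i < j) : (1 / 2 : ℝ) ^ (i + 2) ≤ ‖cc i - cc j‖ := by
  have e1 : cc i - cc j = -((1 / 2 : ℝ) ^ (i + 1) - (1 / 2 : ℝ) ^ (j + 1)) • e 0 := by
    unfold cc
    module
  have h2 : (1 / 2 : ℝ) ^ (j + 1) ≤ (1 / 2) ^ (i + 2) :=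
    pow_le_pow_of_le_one (by norm_num) (by norm_num) (by omega)
  have h3 : (1 / 2 : ℝ) ^ (i + 1) = 2 * (1 / 2) ^ (i + 2) := by
    rw [pow_succ _ (i + 1)]
    ring
  have h4 : (0 : ℝ) < (1 / 2) ^ (i + 2) := by positivity
  rw [e1, norm_smul, norm_neg, norm_e, mul_one, Real.norm_of_nonneg (by linarith)]
  linarith

theorem sep {i j : ℕ} (h : i ≠ j) {x : E} (hx : x ∈ Metric.ball (cc j) (RR j)) :
    (1 / 2 : ℝ) ^ (i + 3) ≤ ‖x - cc i‖ := by
  rw [Metric.mem_ball, dist_eq_norm] at hx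
  have htri : ‖cc i - cc j‖ ≤ ‖x - cc i‖ + ‖x - cc j‖ := by
    have := norm_sub_le_norm_sub_add_norm_sub (cc i) x (cc j)
    rw [norm_sub_rev (cc i) x] at this
    exact this
  unfold RR at hx
  rcases lt_or_gt_of_ne h with h1 | h1
  · have h2 := norm_cc_sub h1
    have h3 : (1 / 2 : ℝ) ^ (j + 4) ≤ (1 / 2) ^ (i + 4) :=
      pow_le_pow_of_le_one (by norm_num) (by norm_num) (by omega)
    have h4 : (1 / 2 : ℝ) ^ (i + 2) = 4 * (1 / 2) ^ (i + 4) := by
      rw [pow_succ _ (i + 3), pow_succ _ (i + 2)]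
      ring
    have h5 : (1 / 2 : ℝ) ^ (i + 3) = 2 * (1 / 2) ^ (i + 4) := by
      rw [pow_succ _ (i + 3)]
      ring
    have h6 : (0 : ℝ) < (1 / 2) ^ (i + 4) := by positivity
    linarith
  · have h2 := norm_cc_sub h1
    rw [norm_sub_rev] at h2
    have h3 : (1 / 2 : ℝ) ^ (i + 3) ≤ (1 / 2) ^ (j + 3) :=
      pow_le_pow_of_le_one (by norm_num) (by norm_num) (by omega)
    have h4 : (1 / 2 : ℝ) ^ (j + 2) = 4 * (1 / 2) ^ (j + 4) := by
      rw [pow_succ _ (j + 3), pow_succ _ (j + 2)]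
      ring
    have h5 : (1 / 2 : ℝ) ^ (j + 3) = 2 * (1 / 2) ^ (j + 4) := by
      rw [pow_succ _ (j + 3)]
      ring
    have h6 : (0 : ℝ) < (1 / 2) ^ (j + 4) := by positivity
    linarith

theorem disj {i j : ℕ} (h : i ≠ j) {x : E} (hx : x ∈ Metric.ball (cc j) (RR j)) :
    x ∉ Metric.ball (cc i) (RR i) := by
  intro hi
  have h1 := sep h hx
  rw [Metric.mem_ball, dist_eq_norm] at hi
  unfold RR at hi
  have h5 : (1 / 2 : ℝ) ^ (i + 3) = 2 * (1 / 2) ^ (i + 4) := by
    rw [pow_succ _ (i + 3)]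
    ring
  have h6 : (0 : ℝ) < (1 / 2) ^ (i + 4) := by positivity
  linarith

/-- The local part of the potential. -/
noncomputable def vv (ε : ℕ → ℝ) (j : ℕ) (x : E) : ℝ :=
  mm j * qq (cc j) (ε j) x / (3 + mm j * LL (cc j) (ε j) x)

/-- The potential. -/
noncomputable def VV (ε : ℕ → ℝ) (x : E) : ℝ :=
  ∑' j, (Metric.ball (cc j) (RR j)).indicator (vv ε j) x

theorem VV_hasSum (ε : ℕ → ℝ) (x : E) :
    HasSum (fun j => (Metric.ball (cc j) (RR j)).indicator (vv ε j) x) (VV ε x) := by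
  apply Summable.hasSum
  by_cases h : ∃ j, x ∈ Metric.ball (cc j) (RR j)
  · obtain ⟨j, hj⟩ := h
    apply (hasSum_single j ?_).summable
    intro i hij
    exact indicator_of_notMem (disj hij hj) _
  · push Not at h
    have : (fun j => (Metric.ball (cc j) (RR j)).indicator (vv ε j) x) = fun _ => 0 := by
      funext j
      exact indicator_of_notMem (h j) _
    rw [this]
    exact summable_zero

theorem VV_of_mem (ε : ℕ → ℝ) {x : E} {j : ℕ} (hj : x ∈ Metric.ball (cc j) (RR j)) :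
    VV ε x = vv ε j x := by
  have h := hasSum_single (f := fun j => (Metric.ball (cc j) (RR j)).indicator (vv ε j) x) j
    (fun i hij => indicator_of_notMem (disj hij hj) _)
  rw [(VV_hasSum ε x).unique h]
  exact indicator_of_mem hj _

theorem VV_of_notMem (ε : ℕ → ℝ) {x : E} (h : ∀ j, x ∉ Metric.ball (cc j) (RR j)) :
    VV ε x = 0 := by
  unfold VV
  have : (fun j => (Metric.ball (cc j) (RR j)).indicator (vv ε j) x) = fun _ => 0 := by
    funext j
    exact indicator_of_notMem (h j) _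
  rw [this, tsum_zero]

theorem vv_continuous {ε : ℕ → ℝ} (h0 : ∀ j, 0 < ε j) (h1 : ∀ j, ε j ≤ 1) (j : ℕ) :
    Continuous (vv ε j) := by
  unfold vv
  have hε := h0 j
  refine Continuous.div (continuous_const.mul ?_) (continuous_const.add
    (continuous_const.mul (LL_contDiff (n := 0) (cc j) hε).continuous)) ?_
  · unfold qq
    refine Continuous.div continuous_const (by fun_prop) fun x => ?_
    positivity
  · intro x
    have := LL_pos (cc j) (h0 j) (h1 j) x
    have := mm_pos j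
    positivity

theorem vv_nonneg {ε : ℕ → ℝ} (h0 : ∀ j, 0 < ε j) (h1 : ∀ j, ε j ≤ 1) (j : ℕ) (x : E) :
    0 ≤ vv ε j x := by
  unfold vv
  have h2 := LL_pos (cc j) (h0 j) (h1 j) x
  have h3 := mm_pos j
  have h4 := qq_nonneg (cc j) (ε j) x
  positivity

theorem VV_nonneg {ε : ℕ → ℝ} (h0 : ∀ j, 0 < ε j) (h1 : ∀ j, ε j ≤ 1) (x : E) :
    0 ≤ VV ε x := by
  unfold VV
  exact tsum_nonneg fun j => indicator_nonneg (fun y _ => vv_nonneg h0 h1 j y) x

theorem VV_measurable {ε : ℕ → ℝ} (h0 : ∀ j, 0 < ε j) (h1 : ∀ j, ε j ≤ 1) :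
    Measurable (VV ε) := by
  refine measurable_of_tendsto_metrizable (f := fun n x => ∑ j ∈ Finset.range n,
    (Metric.ball (cc j) (RR j)).indicator (vv ε j) x) ?_
    (tendsto_pi_nhds.2 fun x => (VV_hasSum ε x).tendsto_sum_nat)
  intro n
  exact Finset.measurable_fun_sum _ fun j _ =>
    (vv_continuous h0 h1 j).measurable.indicator measurableSet_ball

/-- Only finitely many of the discs meet a compact subset of the unit disc. -/
theorem exists_bound {K : Set E} (hK : IsCompact K) (hKB : K ⊆ Metric.ball 0 1) :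
    ∃ n : ℕ, ∀ j, ∀ x ∈ K, x ∈ Metric.ball (cc j) (RR j) → j < n := by
  have : ∃ r : ℝ, r < 1 ∧ ∀ x ∈ K, ‖x‖ ≤ r := by
    rcases K.eq_empty_or_nonempty with rfl | hne
    · exact ⟨0, by norm_num, by simp⟩
    · obtain ⟨z, hz, hmax⟩ := hK.exists_isMaxOn hne continuous_norm.continuousOn
      refine ⟨‖z‖, by simpa using hKB hz, fun x hx => hmax hx⟩
  obtain ⟨r, hr, hr2⟩ := this
  obtain ⟨n, hn⟩ := exists_pow_lt_of_lt_one (show (0 : ℝ) < 1 - r by linarith)
    (show (1 / 2 : ℝ) < 1 by norm_num)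
  refine ⟨n, fun j x hx hxj => ?_⟩
  by_contra hcon
  push Not at hcon
  have h1 := hr2 x hx
  rw [Metric.mem_ball, dist_eq_norm] at hxj
  have h2 : ‖cc j‖ ≤ ‖x‖ + ‖x - cc j‖ := by
    have := norm_sub_norm_le (cc j) x
    rw [norm_sub_rev (cc j) x] at this
    linarith
  rw [norm_cc] at h2
  unfold RR at hxj
  have h3 : (1 / 2 : ℝ) ^ j ≤ (1 / 2) ^ n :=
    pow_le_pow_of_le_one (by norm_num) (by norm_num) hcon
  have h4 : (1 / 2 : ℝ) ^ (j + 1) = (1 / 2) * (1 / 2) ^ j := by rw [pow_succ]; ring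
  have h5 : (1 / 2 : ℝ) ^ (j + 4) = (1 / 16) * (1 / 2) ^ j := by rw [pow_add]; ring
  have h6 : (0 : ℝ) < (1 / 2) ^ j := by positivity
  rw [h5] at hxj
  rw [h4] at h2
  linarith

theorem VV_locally_bounded {ε : ℕ → ℝ} (h0 : ∀ j, 0 < ε j) (h1 : ∀ j, ε j ≤ 1) {K : Set E}
    (hK : IsCompact K) (hKB : K ⊆ Metric.ball 0 1) :
    ∃ M : ℝ, 0 ≤ M ∧ ∀ x ∈ K, |VV ε x| ≤ M := by
  obtain ⟨n, hn⟩ := exists_bound hK hKB
  have hb : ∀ j : ℕ, ∃ M : ℝ, 0 ≤ M ∧ ∀ x ∈ K, |vv ε j x| ≤ M := by
    intro j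
    obtain ⟨C, hC⟩ := hK.exists_bound_of_continuousOn (vv_continuous h0 h1 j).continuousOn
    exact ⟨max C 0, le_max_right _ _, fun x hx => (hC x hx).trans (le_max_left _ _)⟩
  choose M hM0 hM using hb
  refine ⟨∑ j ∈ Finset.range n, M j, Finset.sum_nonneg fun j _ => hM0 j, fun x hx => ?_⟩
  by_cases h : ∃ j, x ∈ Metric.ball (cc j) (RR j)
  · obtain ⟨j, hj⟩ := h
    rw [VV_of_mem ε hj]
    exact (hM j x hx).trans (Finset.single_le_sum (f := M) (fun i _ => hM0 i)
      (Finset.mem_range.2 (hn j x hx hj)))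
  · push Not at h
    rw [VV_of_notMem ε h, abs_zero]
    exact Finset.sum_nonneg fun j _ => hM0 j

/-- The comparison functions. -/
noncomputable def Phi (ε : ℕ → ℝ) : ℕ → E → ℝ
  | 0 => LL 0 1
  | n + 1 => fun x => 0 + 1 * Phi ε n x + mm n * LL (cc n) (ε n) x

theorem Phi_contDiff {ε : ℕ → ℝ} (h0 : ∀ j, 0 < ε j) (n : ℕ) : ContDiff ℝ 2 (Phi ε n) := by
  induction n with
  | zero => exact LL_contDiff 0 one_pos
  | succ n ih =>
    exact (contDiff_const.add (contDiff_const.mul ih)).add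
      (contDiff_const.mul (LL_contDiff (cc n) (h0 n)))

theorem Phi_eq (ε : ℕ → ℝ) (n : ℕ) (x : E) :
    Phi ε n x = LL 0 1 x + ∑ i ∈ Finset.range n, mm i * LL (cc i) (ε i) x := by
  induction n with
  | zero => simp [Phi]
  | succ n ih =>
    rw [Finset.sum_range_succ]
    change 0 + 1 * Phi ε n x + mm n * LL (cc n) (ε n) x = _
    rw [ih]
    ring

theorem Phi_pos {ε : ℕ → ℝ} (h0 : ∀ j, 0 < ε j) (h1 : ∀ j, ε j ≤ 1) (n : ℕ) (x : E) :
    0 < Phi ε n x := by
  rw [Phi_eq]
  have h2 := LL_pos 0 one_pos le_rfl x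
  have h3 : 0 ≤ ∑ i ∈ Finset.range n, mm i * LL (cc i) (ε i) x :=
    Finset.sum_nonneg fun i _ => mul_nonneg (mm_pos i).le (LL_pos (cc i) (h0 i) (h1 i) x).le
  linarith

theorem sum_mm_le (n : ℕ) : ∑ i ∈ Finset.range n, mm i ≤ 1 - (1 / 4) ^ n := by
  induction n with
  | zero => simp
  | succ n ih =>
    rw [Finset.sum_range_succ]
    have h1 : mm n = (1 / 16) * (1 / 4) ^ n := by unfold mm; rw [pow_add]; ring
    have h2 : (1 / 4 : ℝ) ^ (n + 1) = (1 / 4) * (1 / 4) ^ n := by rw [pow_succ]; ring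
    have h3 : (0 : ℝ) < (1 / 4) ^ n := by positivity
    rw [h1, h2]
    linarith

theorem lap_Phi_le {ε : ℕ → ℝ} (h0 : ∀ j, 0 < ε j) (n : ℕ) {x : E} (hx : ‖x‖ ≤ 1) :
    3 / 8 + ∑ i ∈ Finset.range n, mm i * qq (cc i) (ε i) x ≤ -lap (Phi ε n) x := by
  have key : -lap (Phi ε n) x ≥ 7 / 16 - (∑ i ∈ Finset.range n, mm i) / 16 +
      ∑ i ∈ Finset.range n, mm i * qq (cc i) (ε i) x := by
    induction n with
    | zero =>
      simp only [Phi, Finset.range_zero, Finset.sum_empty]
      rw [lap_LL 0 one_pos, qq, sub_zero]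
      have h1 : (0 : ℝ) ≤ ‖x‖ ^ 2 := by positivity
      have h2 : ‖x‖ ^ 2 ≤ 1 := by
        have := norm_nonneg x
        nlinarith
      have h3 : 64 / (‖x‖ ^ 2 + 32) ^ 2 ≤ 1 / 16 := by
        rw [div_le_div_iff₀ (by positivity) (by norm_num)]
        nlinarith
      have h4 : 1 / 2 ≤ 2 * 1 ^ 2 / (‖x‖ ^ 2 + 1 ^ 2) ^ 2 := by
        rw [div_le_div_iff₀ (by norm_num) (by positivity)]
        nlinarith
      linarith
    | succ n ih =>
      have h1 : lap (Phi ε (n + 1)) x = 1 * lap (Phi ε n) x + mm n * lap (LL (cc n) (ε n)) x :=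
        lap_lin (Phi_contDiff h0 n) (LL_contDiff (cc n) (h0 n)) 0 1 (mm n) x
      rw [h1, lap_LL (cc n) (h0 n), Finset.sum_range_succ, Finset.sum_range_succ]
      have h2 : (0 : ℝ) ≤ ‖x - cc n‖ ^ 2 := by positivity
      have h3 : 64 / (‖x - cc n‖ ^ 2 + 32) ^ 2 ≤ 1 / 16 := by
        rw [div_le_div_iff₀ (by positivity) (by norm_num)]
        nlinarith
      have h4 := mul_le_mul_of_nonneg_left h3 (mm_pos n).le
      rw [mul_sub]
      linarith
  have h2 := sum_mm_le n
  have h3 : (0 : ℝ) < (1 / 4) ^ n := by positivity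
  linarith

theorem LL_zero_le (x : E) : LL 0 1 x ≤ 2 := by
  unfold LL ell
  have h1 : Real.log (‖x - 0‖ ^ 2 + 32) ≤ Real.log (32 * (‖x - 0‖ ^ 2 + 1 ^ 2)) := by
    apply Real.log_le_log (by positivity)
    nlinarith [sq_nonneg ‖x - 0‖]
  have h2 : Real.log (32 * (‖x - 0‖ ^ 2 + 1 ^ 2)) =
      Real.log 32 + Real.log (‖x - 0‖ ^ 2 + 1 ^ 2) :=
    Real.log_mul (by norm_num) (by positivity)
  have h3 : Real.log 32 = 5 * Real.log 2 := by
    rw [show (32 : ℝ) = 2 ^ 5 by norm_num, Real.log_pow]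
    norm_num
  have h4 := Real.log_two_lt_d9
  rw [h2, h3] at h1
  set A := Real.log (‖x - 0‖ ^ 2 + 32)
  set B := Real.log (‖x - 0‖ ^ 2 + 1 ^ 2)
  set C := Real.log 2
  have h5 : C < 0.7 := lt_trans h4 (by norm_num)
  norm_num at h5 h1 ⊢
  linarith

theorem mm_mul_le (i : ℕ) : mm i * (i + 8) ≤ 1 / 2 * (1 / 2) ^ i := by
  have h1 : mm i = (1 / 16) * ((1 / 2) ^ i * (1 / 2) ^ i) := by
    unfold mm
    rw [pow_add, ← mul_pow]
    norm_num
    ring
  have h2 : ((i : ℝ) + 8) ≤ 8 * 2 ^ i := by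
    have : (i : ℝ) + 1 ≤ 2 ^ i := by
      have h := Nat.lt_two_pow_self (n := i)
      exact_mod_cast h
    have h3 : (0 : ℝ) ≤ i := Nat.cast_nonneg i
    linarith
  have h3 : (1 / 2 : ℝ) ^ i * 2 ^ i = 1 := by
    rw [← mul_pow]
    norm_num
  have h4 : (0 : ℝ) < (1 / 2) ^ i := by positivity
  calc mm i * (i + 8) ≤ mm i * (8 * 2 ^ i) := mul_le_mul_of_nonneg_left h2 (mm_pos i).le
    _ = 1 / 2 * (1 / 2) ^ i * ((1 / 2) ^ i * 2 ^ i) := by rw [h1]; ring
    _ = _ := by rw [h3, mul_one]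

theorem sum_half_le (n : ℕ) : ∑ i ∈ Finset.range n, (1 / 2 : ℝ) * (1 / 2) ^ i ≤ 1 := by
  have : ∀ n : ℕ, ∑ i ∈ Finset.range n, (1 / 2 : ℝ) * (1 / 2) ^ i = 1 - (1 / 2) ^ n := by
    intro n
    induction n with
    | zero => simp
    | succ n ih =>
      rw [Finset.sum_range_succ, ih, pow_succ]
      ring
  rw [this]
  have h4 : (0 : ℝ) < (1 / 2) ^ n := by positivity
  linarith

theorem Phi_le_near {ε : ℕ → ℝ} (h0 : ∀ j, 0 < ε j) (h1 : ∀ j, ε j ≤ 1) (n : ℕ) {x : E}
    (hx : ‖x‖ ≤ 1) {j : ℕ} (hj : x ∈ Metric.ball (cc j) (RR j)) :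
    Phi ε n x ≤ 3 + mm j * LL (cc j) (ε j) x := by
  rw [Phi_eq]
  have h2 := LL_zero_le x
  have hL : 0 ≤ mm j * LL (cc j) (ε j) x :=
    mul_nonneg (mm_pos j).le (LL_pos (cc j) (h0 j) (h1 j) x).le
  have h3 : ∑ i ∈ Finset.range n, mm i * LL (cc i) (ε i) x ≤ ∑ i ∈ Finset.range n,
      ((1 / 2 : ℝ) * (1 / 2) ^ i + if j = i then mm j * LL (cc j) (ε j) x else 0) := by
    refine Finset.sum_le_sum fun i _ => ?_
    by_cases hij : j = i
    · subst hij
      rw [if_pos rfl]
      have : (0 : ℝ) ≤ 1 / 2 * (1 / 2) ^ j := by positivity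
      linarith
    · rw [if_neg hij, add_zero]
      refine le_trans ?_ (mm_mul_le i)
      have := LL_le (h0 i) hx (norm_cc_le i) (i + 3) (sep (Ne.symm hij) hj)
      push_cast at this
      exact mul_le_mul_of_nonneg_left (by linarith) (mm_pos i).le
  rw [Finset.sum_add_distrib, Finset.sum_ite_eq] at h3
  have h4 := sum_half_le n
  have h5 : (if j ∈ Finset.range n then mm j * LL (cc j) (ε j) x else 0) ≤
      mm j * LL (cc j) (ε j) x := by
    split_ifs
    · exact le_rfl
    · exact hL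
  linarith

theorem Phi_le_center {ε : ℕ → ℝ} (h0 : ∀ j, 0 < ε j) (n : ℕ) {x : E}
    (hx : x ∈ Metric.ball (0 : E) (1 / 4)) : Phi ε n x ≤ 3 := by
  rw [Phi_eq]
  have h2 := LL_zero_le x
  rw [mem_ball_zero_iff] at hx
  have h3 : ∑ i ∈ Finset.range n, mm i * LL (cc i) (ε i) x ≤ ∑ i ∈ Finset.range n,
      (1 / 2 : ℝ) * (1 / 2) ^ i := by
    refine Finset.sum_le_sum fun i _ => ?_
    refine le_trans ?_ (mm_mul_le i)
    have h4 : (1 / 2 : ℝ) ^ 2 ≤ ‖x - cc i‖ := by
      have h5 := norm_sub_norm_le (cc i) x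
      rw [norm_sub_rev (cc i) x, norm_cc] at h5
      have h6 : (1 / 2 : ℝ) ^ (i + 1) ≤ 1 / 2 := by
        rw [pow_succ]
        have := half_pow_le i
        linarith
      norm_num at h5 ⊢
      linarith
    have := LL_le (h0 i) (by linarith) (norm_cc_le i) 2 h4
    push_cast at this
    have h7 : (0 : ℝ) ≤ i := Nat.cast_nonneg i
    exact mul_le_mul_of_nonneg_left (by linarith) (mm_pos i).le
  have h4 := sum_half_le n
  linarith

theorem integrable_VV_mul {ε : ℕ → ℝ} (h0 : ∀ j, 0 < ε j) (h1 : ∀ j, ε j ≤ 1) {u : E → ℝ}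
    (hu : Continuous u) (huc : HasCompactSupport u) (hs : tsupport u ⊆ Metric.ball 0 1) :
    Integrable (fun x => VV ε x * u x ^ 2) := by
  obtain ⟨M, hM0, hM⟩ := VV_locally_bounded h0 h1 huc hs
  have hsup : Function.support (fun x => VV ε x * u x ^ 2) ⊆ tsupport u := by
    intro x hx
    apply subset_closure
    intro h
    apply hx
    simp [h]
  rw [← integrableOn_iff_integrable_of_support_subset hsup]
  obtain ⟨C, hC⟩ := IsCompact.exists_bound_of_continuousOn huc (hu.pow 2).continuousOn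
  refine Measure.integrableOn_of_bounded (M := M * C) huc.measure_lt_top.ne ?_ ?_
  · exact ((VV_measurable h0 h1).mul (hu.pow 2).measurable).aestronglyMeasurable
  · refine (ae_restrict_iff' (isClosed_tsupport u).measurableSet).2
      (Eventually.of_forall fun x hx => ?_)
    rw [norm_mul]
    exact mul_le_mul (hM x hx) (hC x hx) (norm_nonneg _) hM0

theorem setIntegral_test {Ω : Set E} {u : E → ℝ} (hs : tsupport u ⊆ Ω) {g : E → ℝ}
    (hg : ∀ x, x ∉ tsupport u → g x = 0) : ∫ x in Ω, g x = ∫ x, g x :=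
  setIntegral_eq_integral_of_forall_compl_eq_zero fun x hx => hg x fun h => hx (hs h)

theorem fderiv_zero_of {u : E → ℝ} {x : E} (hx : x ∉ tsupport u) : fderiv ℝ u x = 0 :=
  image_eq_zero_of_notMem_tsupport fun h => hx (tsupport_fderiv_subset ℝ h)

theorem Q_eq {Ω : Set E} {V u : E → ℝ} (hs : tsupport u ⊆ Ω) :
    Q Ω V u = (∫ x, ‖fderiv ℝ u x‖ ^ 2) - (∫ x, V x * u x ^ 2) := by
  unfold Q
  rw [setIntegral_test hs, setIntegral_test hs]
  · intro x hx
    rw [image_eq_zero_of_notMem_tsupport hx]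
    simp
  · intro x hx
    rw [fderiv_zero_of hx]
    simp

theorem weaklyCoercive {ε : ℕ → ℝ} (h0 : ∀ j, 0 < ε j) (h1 : ∀ j, ε j ≤ 1) :
    WeaklyCoercive (Metric.ball 0 1) (VV ε) := by
  have hcl : closure (Metric.ball (0 : E) (1 / 4)) = Metric.closedBall 0 (1 / 4) :=
    closure_ball _ (by norm_num)
  refine ⟨Metric.ball 0 (1 / 4), ⟨0, Metric.mem_ball_self (by norm_num)⟩, Metric.isOpen_ball,
    ?_, ?_, 1 / 8, by norm_num, ?_⟩
  · rw [hcl]
    exact isCompact_closedBall _ _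
  · rw [hcl]
    exact Metric.closedBall_subset_ball (by norm_num)
  rintro u ⟨hu, huc, hs⟩
  have hu1 : ContDiff ℝ 1 u := hu.of_le (by exact_mod_cast le_top)
  rw [Q_eq hs]
  obtain ⟨n, hn⟩ := exists_bound huc hs
  have hg := ground_state hu1 huc (Phi_contDiff h0 n) (Phi_pos h0 h1 n)
  have hAfin : volume (Metric.ball (0 : E) (1 / 4)) ≠ ⊤ := measure_ball_lt_top.ne
  have hint := integrable_VV_mul h0 h1 hu.continuous huc hs
  have hsq : Integrable (fun x => u x ^ 2) :=
    (hu.continuous.pow 2).integrable_of_hasCompactSupport (huc.mono' fun x hx =>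
      subset_closure fun h => hx (by simp [h]))
  have hu_int : Integrable u := hu.continuous.integrable_of_hasCompactSupport huc
  have hpt : ∀ x, VV ε x * u x ^ 2 + 1 / 8 * (Metric.ball (0 : E) (1 / 4)).indicator
      (fun x => u x ^ 2) x ≤ (-lap (Phi ε n) x / Phi ε n x) * u x ^ 2 := by
    intro x
    by_cases hx : x ∈ tsupport u
    · have hxn : ‖x‖ ≤ 1 := by
        have := hs hx
        rw [mem_ball_zero_iff] at this
        exact this.le
      have hP := Phi_pos h0 h1 n x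
      have hl := lap_Phi_le h0 n hxn
      have hV : VV ε x * Phi ε n x ≤ ∑ i ∈ Finset.range n, mm i * qq (cc i) (ε i) x := by
        have hterm : ∀ i, 0 ≤ mm i * qq (cc i) (ε i) x := fun i =>
          mul_nonneg (mm_pos i).le (qq_nonneg _ _ _)
        by_cases h : ∃ j, x ∈ Metric.ball (cc j) (RR j)
        · obtain ⟨j, hj⟩ := h
          rw [VV_of_mem ε hj, vv]
          have hjn := hn j x hx hj
          have hden := Phi_le_near h0 h1 n hxn hj
          have hpos : 0 < 3 + mm j * LL (cc j) (ε j) x := lt_of_lt_of_le hP hden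
          refine le_trans ?_ (Finset.single_le_sum (f := fun i => mm i * qq (cc i) (ε i) x)
            (fun i _ => hterm i) (Finset.mem_range.2 hjn))
          rw [div_mul_eq_mul_div, div_le_iff₀ hpos]
          exact mul_le_mul_of_nonneg_left hden (hterm j)
        · push Not at h
          rw [VV_of_notMem ε h, zero_mul]
          exact Finset.sum_nonneg fun i _ => hterm i
      have hA : (Metric.ball (0 : E) (1 / 4)).indicator (fun x => u x ^ 2) x * Phi ε n x ≤
          3 * u x ^ 2 := by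
        by_cases hxA : x ∈ Metric.ball (0 : E) (1 / 4)
        · rw [indicator_of_mem hxA]
          have := Phi_le_center h0 n hxA
          nlinarith [sq_nonneg (u x)]
        · rw [indicator_of_notMem hxA, zero_mul]
          positivity
      have hdm : -lap (Phi ε n) x / Phi ε n x * u x ^ 2 =
          -lap (Phi ε n) x * u x ^ 2 / Phi ε n x := div_mul_eq_mul_div _ _ _
      rw [hdm, le_div_iff₀ hP]
      have hu2 : 0 ≤ u x ^ 2 := sq_nonneg _
      nlinarith
    · rw [image_eq_zero_of_notMem_tsupport hx]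
      simp [indicator, image_eq_zero_of_notMem_tsupport hx]
  have hind : Integrable (fun x => 1 / 8 * (Metric.ball (0 : E) (1 / 4)).indicator
      (fun x => u x ^ 2) x) := (hsq.indicator measurableSet_ball).const_mul _
  have hint2 : Integrable (fun x => (-lap (Phi ε n) x / Phi ε n x) * u x ^ 2) := by
    refine Continuous.integrable_of_hasCompactSupport ?_ (huc.mono' fun x hx =>
      subset_closure fun h => hx (by simp [h]))
    exact ((continuous_lap (Phi_contDiff h0 n)).neg.div (Phi_contDiff h0 n).continuous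
      fun x => (Phi_pos h0 h1 n x).ne').mul (hu.continuous.pow 2)
  have hmain := integral_mono (hint.add hind) hint2 hpt
  have hadd : ∫ x, (VV ε x * u x ^ 2 + 1 / 8 * (Metric.ball (0 : E) (1 / 4)).indicator
      (fun x => u x ^ 2) x) = (∫ x, VV ε x * u x ^ 2) +
        1 / 8 * ∫ x in Metric.ball (0 : E) (1 / 4), u x ^ 2 := by
    rw [integral_add hint hind, integral_const_mul, integral_indicator measurableSet_ball]
  have hCS : (∫ x in Metric.ball (0 : E) (1 / 4), u x) ^ 2 ≤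
      ∫ x in Metric.ball (0 : E) (1 / 4), u x ^ 2 := by
    set m := ∫ x in Metric.ball (0 : E) (1 / 4), u x with hm
    have h2 : 0 ≤ ∫ x in Metric.ball (0 : E) (1 / 4), (u x - m) ^ 2 :=
      integral_nonneg fun x => sq_nonneg _
    have h3 : ∫ x in Metric.ball (0 : E) (1 / 4), (u x - m) ^ 2 =
        (∫ x in Metric.ball (0 : E) (1 / 4), u x ^ 2) - 2 * m * m +
          m ^ 2 * (volume (Metric.ball (0 : E) (1 / 4))).toReal := by
      have : ∀ x, (u x - m) ^ 2 = (u x ^ 2 - (2 * m) * u x) + m ^ 2 := fun x => by ring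
      simp_rw [this]
      have hfin : IsFiniteMeasure (volume.restrict (Metric.ball (0 : E) (1 / 4))) :=
        ⟨by rw [Measure.restrict_apply_univ]; exact measure_ball_lt_top⟩
      have e1 : ∫ x in Metric.ball (0 : E) (1 / 4), ((u x ^ 2 - (2 * m) * u x) + m ^ 2) =
          (∫ x in Metric.ball (0 : E) (1 / 4), (u x ^ 2 - (2 * m) * u x)) +
            ∫ x in Metric.ball (0 : E) (1 / 4), m ^ 2 :=
        integral_add (hsq.restrict.sub (hu_int.restrict.const_mul (2 * m))) (integrable_const _)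
      have e2 : ∫ x in Metric.ball (0 : E) (1 / 4), (u x ^ 2 - (2 * m) * u x) =
          (∫ x in Metric.ball (0 : E) (1 / 4), u x ^ 2) -
            ∫ x in Metric.ball (0 : E) (1 / 4), (2 * m) * u x :=
        integral_sub hsq.restrict (hu_int.restrict.const_mul (2 * m))
      rw [e1, e2, integral_const_mul, ← hm]
      simp [Measure.real, mul_comm]
    have h4 : (volume (Metric.ball (0 : E) (1 / 4))).toReal ≤ 1 := by
      rw [EuclideanSpace.volume_ball_fin_two]
      rw [ENNReal.toReal_mul, ENNReal.toReal_pow, ENNReal.toReal_ofReal (by norm_num),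
        ENNReal.toReal_ofReal Real.pi_pos.le]
      have := Real.pi_lt_four
      linarith
    rw [h3] at h2
    nlinarith [sq_nonneg m]
  have hmain' : (∫ x, VV ε x * u x ^ 2) + 1 / 8 * (∫ x in Metric.ball (0 : E) (1 / 4), u x ^ 2) ≤
      ∫ x, (-lap (Phi ε n) x / Phi ε n x) * u x ^ 2 := by
    rw [← hadd]
    exact hmain
  linarith

/-- The fixed bump function. -/
noncomputable def bump : ContDiffBump (0 : E) := ⟨1 / 2, 1, by norm_num, by norm_num⟩

theorem exists_bump_bound : ∃ M : ℝ, 0 ≤ M ∧ ∀ x, ‖fderiv ℝ bump x‖ ≤ M := by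
  have h1 : Continuous (fderiv ℝ bump) :=
    (bump.contDiff (n := 1)).continuous_fderiv one_ne_zero
  have h2 : HasCompactSupport (fderiv ℝ bump) := bump.hasCompactSupport.fderiv (𝕜 := ℝ)
  obtain ⟨C, hC⟩ := h2.exists_bound_of_continuous h1
  exact ⟨max C 0, le_max_right _ _, fun x => (hC x).trans (le_max_left _ _)⟩

/-- The cutoff functions. -/
noncomputable def zeta (t : ℝ) (j : ℕ) (x : E) : ℝ := t * bump ((RR j)⁻¹ • (x - cc j))

theorem zeta_contDiff (t : ℝ) (j : ℕ) : ContDiff ℝ ∞ (zeta t j) := by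
  have h : ContDiff ℝ ∞ (fun x : E => (RR j)⁻¹ • (x - cc j)) := by fun_prop
  exact contDiff_const.mul (bump.contDiff.comp h)

theorem zeta_support {t : ℝ} {j : ℕ} {x : E} (h : zeta t j x ≠ 0) :
    x ∈ Metric.ball (cc j) (RR j) := by
  have h1 : bump ((RR j)⁻¹ • (x - cc j)) ≠ 0 := fun h0 => h (by rw [zeta, h0, mul_zero])
  have h2 : (RR j)⁻¹ • (x - cc j) ∈ Function.support bump := h1
  rw [bump.support_eq, mem_ball_zero_iff, norm_smul, norm_inv,
    Real.norm_of_nonneg (RR_pos j).le] at h2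
  have h3 : bump.rOut = 1 := rfl
  rw [h3, inv_mul_lt_iff₀ (RR_pos j), mul_one] at h2
  rw [Metric.mem_ball, dist_eq_norm]
  exact h2

theorem zeta_tsupport (t : ℝ) (j : ℕ) :
    tsupport (zeta t j) ⊆ Metric.closedBall (cc j) (RR j) :=
  closure_minimal (fun _ hx => Metric.ball_subset_closedBall (zeta_support hx))
    Metric.isClosed_closedBall

theorem zeta_compact (t : ℝ) (j : ℕ) : HasCompactSupport (zeta t j) :=
  (isCompact_closedBall (cc j) (RR j)).of_isClosed_subset (isClosed_tsupport _)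
    (zeta_tsupport t j)

theorem bump_inner {y : E} (h : ‖y‖ < 1 / 2) : bump y = 1 := by
  apply bump.one_of_mem_closedBall
  rw [mem_closedBall_zero_iff]
  exact h.le

theorem zeta_inner {t : ℝ} {j : ℕ} {x : E} (h : ‖x - cc j‖ < RR j / 2) :
    zeta t j =ᶠ[𝓝 x] fun _ => t := by
  have h2 : ∀ᶠ y : E in 𝓝 x, ‖y - cc j‖ < RR j / 2 := by
    have : Continuous fun y : E => ‖y - cc j‖ := by fun_prop
    exact this.continuousAt.eventually (gt_mem_nhds h)
  filter_upwards [h2] with y hy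
  have h1 : ‖(RR j)⁻¹ • (y - cc j)‖ < 1 / 2 := by
    rw [norm_smul, norm_inv, Real.norm_of_nonneg (RR_pos j).le, inv_mul_lt_iff₀ (RR_pos j)]
    linarith
  rw [zeta, bump_inner h1, mul_one]

theorem zeta_fderiv_bound {M : ℝ} (hM : ∀ x, ‖fderiv ℝ bump x‖ ≤ M) {t : ℝ} (ht : 0 ≤ t)
    (j : ℕ) (x : E) : ‖fderiv ℝ (zeta t j) x‖ ≤ t * (M * (RR j)⁻¹) := by
  have h1 : HasFDerivAt (fun y : E => (RR j)⁻¹ • (y - cc j))
      ((RR j)⁻¹ • ContinuousLinearMap.id ℝ E) x :=
    ((hasFDerivAt_id x).sub_const (cc j)).fun_const_smul (RR j)⁻¹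
  have h2 : HasFDerivAt bump (fderiv ℝ bump ((RR j)⁻¹ • (x - cc j))) ((RR j)⁻¹ • (x - cc j)) :=
    ((bump.contDiff (n := 1)).differentiable one_ne_zero _).hasFDerivAt
  have h3 : HasFDerivAt (zeta t j) _ x := (h2.comp x h1).const_mul t
  rw [h3.fderiv, norm_smul, Real.norm_of_nonneg ht]
  refine mul_le_mul_of_nonneg_left ?_ ht
  refine (ContinuousLinearMap.opNorm_comp_le _ _).trans ?_
  have h4 : ‖(RR j)⁻¹ • ContinuousLinearMap.id ℝ E‖ ≤ (RR j)⁻¹ := by
    rw [norm_smul, norm_inv, Real.norm_of_nonneg (RR_pos j).le]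
    exact mul_le_of_le_one_right (inv_nonneg.2 (RR_pos j).le) ContinuousLinearMap.norm_id_le
  exact mul_le_mul (hM _) h4 (norm_nonneg _) (le_trans (norm_nonneg _) (hM 0))

/-- The local ground state. -/
noncomputable def PP (ε : ℕ → ℝ) (j : ℕ) (x : E) : ℝ := 3 + mm j * LL (cc j) (ε j) x

theorem PP_contDiff {ε : ℕ → ℝ} (h0 : ∀ j, 0 < ε j) (j : ℕ) {n : WithTop ℕ∞} :
    ContDiff ℝ n (PP ε j) :=
  contDiff_const.add (contDiff_const.mul (LL_contDiff (cc j) (h0 j)))

theorem PP_pos {ε : ℕ → ℝ} (h0 : ∀ j, 0 < ε j) (h1 : ∀ j, ε j ≤ 1) (j : ℕ) (x : E) :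
    0 < PP ε j x := by
  unfold PP
  have := LL_pos (cc j) (h0 j) (h1 j) x
  have := mm_pos j
  positivity

theorem lap_PP {ε : ℕ → ℝ} (h0 : ∀ j, 0 < ε j) (j : ℕ) (x : E) :
    lap (PP ε j) x = mm j * (64 / (‖x - cc j‖ ^ 2 + 32) ^ 2 - qq (cc j) (ε j) x) := by
  have h := lap_lin (LL_contDiff (n := 2) (cc j) (h0 j)) (LL_contDiff (n := 2) (cc j) (h0 j)) 3
    (mm j) 0 x
  have h2 : (fun y => 3 + mm j * LL (cc j) (ε j) y + 0 * LL (cc j) (ε j) y) = PP ε j := by
    funext y
    unfold PP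
    ring
  rw [h2, zero_mul, add_zero, lap_LL (cc j) (h0 j)] at h
  exact h

theorem closedBall_subset (j : ℕ) : Metric.closedBall (cc j) (RR j) ⊆ Metric.ball 0 1 := by
  intro x hx
  rw [Metric.mem_closedBall, dist_eq_norm] at hx
  rw [mem_ball_zero_iff]
  have h1 := norm_sub_norm_le x (cc j)
  rw [norm_cc] at h1
  unfold RR at hx
  have h4 : (1 / 2 : ℝ) ^ (j + 1) = (1 / 2) * (1 / 2) ^ j := by rw [pow_succ]; ring
  have h5 : (1 / 2 : ℝ) ^ (j + 4) = (1 / 16) * (1 / 2) ^ j := by rw [pow_add]; ring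
  have h6 : (0 : ℝ) < (1 / 2) ^ j := by positivity
  rw [h4] at h1
  rw [h5] at hx
  linarith

/-- The test functions. -/
noncomputable def uu (ε : ℕ → ℝ) (t : ℝ) (j : ℕ) (x : E) : ℝ := zeta t j x * PP ε j x

theorem uu_tsupport (ε : ℕ → ℝ) (t : ℝ) (j : ℕ) :
    tsupport (uu ε t j) ⊆ Metric.closedBall (cc j) (RR j) := by
  refine closure_minimal (fun x hx => Metric.ball_subset_closedBall (zeta_support (t := t) ?_))
    Metric.isClosed_closedBall
  intro h
  apply hx
  rw [uu, h, zero_mul]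

theorem uu_test {ε : ℕ → ℝ} (h0 : ∀ j, 0 < ε j) (t : ℝ) (j : ℕ) :
    IsTest (Metric.ball 0 1) (uu ε t j) := by
  refine ⟨(zeta_contDiff t j).mul (PP_contDiff h0 j), ?_, ?_⟩
  · exact (isCompact_closedBall (cc j) (RR j)).of_isClosed_subset (isClosed_tsupport _)
      (uu_tsupport ε t j)
  · exact (uu_tsupport ε t j).trans (closedBall_subset j)

theorem uu_energy {ε : ℕ → ℝ} (h0 : ∀ j, 0 < ε j) (h1 : ∀ j, ε j ≤ 1) {M : ℝ}
    (hM : ∀ x, ‖fderiv ℝ bump x‖ ≤ M) {t : ℝ} (ht : 0 ≤ t) (j : ℕ) :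
    Q (Metric.ball 0 1) (VV ε) (uu ε t j) ≤ 16 * Real.pi * (t * M) ^ 2 := by
  have htest := uu_test h0 t j
  have hM0 : 0 ≤ M := le_trans (norm_nonneg _) (hM 0)
  rw [Q_eq htest.2.2]
  have hz1 : ContDiff ℝ 1 (zeta t j) := (zeta_contDiff t j).of_le (by exact_mod_cast le_top)
  have hen := energy_mul hz1 (zeta_compact t j) (PP_contDiff h0 j (n := 2))
  have hfun : (fun y => zeta t j y * PP ε j y) = uu ε t j := rfl
  rw [hfun] at hen
  rw [hen]
  have hi1 : Integrable (fun x => zeta t j x ^ 2 * PP ε j x * lap (PP ε j) x) := by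
    refine Continuous.integrable_of_hasCompactSupport ?_ ((zeta_compact t j).mono' fun x hx =>
      subset_closure fun h => hx (by simp [h]))
    exact ((hz1.continuous.pow 2).mul (PP_contDiff h0 j (n := 2)).continuous).mul
      (continuous_lap (PP_contDiff h0 j))
  have hi2 := integrable_VV_mul h0 h1 htest.1.continuous htest.2.1 htest.2.2
  have hpos : 0 ≤ (∫ x, zeta t j x ^ 2 * PP ε j x * lap (PP ε j) x) +
      ∫ x, VV ε x * uu ε t j x ^ 2 := by
    rw [← integral_add hi1 hi2]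
    refine integral_nonneg fun x => ?_
    change 0 ≤ zeta t j x ^ 2 * PP ε j x * lap (PP ε j) x + VV ε x * uu ε t j x ^ 2
    by_cases hz : zeta t j x = 0
    · rw [uu, hz]
      simp
    · have hx := zeta_support hz
      have hP := PP_pos h0 h1 j x
      have hV : VV ε x * uu ε t j x ^ 2 = mm j * qq (cc j) (ε j) x * zeta t j x ^ 2 * PP ε j x := by
        rw [VV_of_mem ε hx]
        have : vv ε j x = mm j * qq (cc j) (ε j) x / PP ε j x := rfl
        rw [this, uu]
        field_simp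
      rw [hV, lap_PP h0]
      have e1 : zeta t j x ^ 2 * PP ε j x *
          (mm j * (64 / (‖x - cc j‖ ^ 2 + 32) ^ 2 - qq (cc j) (ε j) x)) +
          mm j * qq (cc j) (ε j) x * zeta t j x ^ 2 * PP ε j x =
          zeta t j x ^ 2 * PP ε j x * mm j * (64 / (‖x - cc j‖ ^ 2 + 32) ^ 2) := by ring
      rw [e1]
      have := mm_pos j
      positivity
  have hbd : ∫ x, PP ε j x ^ 2 * ‖fderiv ℝ (zeta t j) x‖ ^ 2 ≤ 16 * Real.pi * (t * M) ^ 2 := by
    have hpt : ∀ x, PP ε j x ^ 2 * ‖fderiv ℝ (zeta t j) x‖ ^ 2 ≤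
        (Metric.closedBall (cc j) (RR j)).indicator
          (fun _ => 16 * (t * (M * (RR j)⁻¹)) ^ 2) x := by
      intro x
      by_cases hx : fderiv ℝ (zeta t j) x = 0
      · rw [hx, norm_zero]
        refine le_trans (by norm_num) (indicator_nonneg (fun y _ => ?_) x)
        positivity
      · have hxc : x ∈ Metric.closedBall (cc j) (RR j) := by
          by_contra hcon
          exact hx (fderiv_zero_of fun h => hcon (zeta_tsupport t j h))
        have hxR : RR j / 2 ≤ ‖x - cc j‖ := by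
          by_contra hcon
          push Not at hcon
          apply hx
          rw [(zeta_inner hcon).fderiv_eq]
          exact fderiv_const_apply _
        rw [indicator_of_mem hxc]
        have hxn : ‖x‖ ≤ 1 := by
          have := closedBall_subset j hxc
          rw [mem_ball_zero_iff] at this
          exact this.le
        have hRk : (1 / 2 : ℝ) ^ (j + 5) ≤ ‖x - cc j‖ := by
          refine le_trans (le_of_eq ?_) hxR
          unfold RR
          rw [pow_succ]
          ring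
        have hL := LL_le (h0 j) hxn (norm_cc_le j) (j + 5) hRk
        push_cast at hL
        have hP4 : PP ε j x ≤ 4 := by
          unfold PP
          have h2 := mul_le_mul_of_nonneg_left
            (show LL (cc j) (ε j) x ≤ j + 8 by linarith) (mm_pos j).le
          have h3 := mm_mul_le j
          have h4 := half_pow_le j
          linarith
        have hP := PP_pos h0 h1 j x
        have hP16 : PP ε j x ^ 2 ≤ 16 := by nlinarith
        have hf := zeta_fderiv_bound hM ht j x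
        have hf2 : ‖fderiv ℝ (zeta t j) x‖ ^ 2 ≤ (t * (M * (RR j)⁻¹)) ^ 2 :=
          pow_le_pow_left₀ (norm_nonneg _) hf 2
        exact mul_le_mul hP16 hf2 (by positivity) (by norm_num)
    have hRpos := RR_pos j
    calc ∫ x, PP ε j x ^ 2 * ‖fderiv ℝ (zeta t j) x‖ ^ 2
        ≤ ∫ x, (Metric.closedBall (cc j) (RR j)).indicator
          (fun _ => 16 * (t * (M * (RR j)⁻¹)) ^ 2) x := by
          refine integral_mono ?_ ?_ hpt
          · refine Continuous.integrable_of_hasCompactSupport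
              (((PP_contDiff h0 j (n := 2)).continuous.pow 2).mul
                ((hz1.continuous_fderiv one_ne_zero).norm.pow 2)) ?_
            refine ((zeta_compact t j).fderiv (𝕜 := ℝ)).mono' fun x hx => subset_closure ?_
            intro h
            apply hx
            simp [h]
          · refine (integrable_indicator_iff Metric.isClosed_closedBall.measurableSet).2 ?_
            exact integrableOn_const (isCompact_closedBall _ _).measure_lt_top.ne
      _ = (RR j) ^ 2 * Real.pi * (16 * (t * (M * (RR j)⁻¹)) ^ 2) := by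
          rw [integral_indicator Metric.isClosed_closedBall.measurableSet, setIntegral_const,
            Measure.real, EuclideanSpace.volume_closedBall_fin_two, ENNReal.toReal_mul,
            ENNReal.toReal_pow, ENNReal.toReal_ofReal (RR_pos j).le,
            ENNReal.toReal_ofReal Real.pi_pos.le, smul_eq_mul]
      _ = 16 * Real.pi * (t * M) ^ 2 := by
          field_simp
  linarith

theorem uu_exp {S : ℕ → ℝ} {t : ℝ} (ht : 0 < t) (j : ℕ) (hS1 : (j : ℝ) + 5 ≤ S j)
    (hS2 : 2 + (j : ℝ) ≤ (t * mm j) ^ 2 * S j) :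
    (j : ℝ) ≤ ∫ x in Metric.ball (0 : E) 1,
      Real.exp (4 * Real.pi * uu (fun i => Real.exp (-S i)) t j x ^ 2) := by
  set ε : ℕ → ℝ := fun i => Real.exp (-S i) with hε
  have hεpos : ∀ i, 0 < ε i := fun i => Real.exp_pos _
  have hcont : Continuous (uu ε t j) := (uu_test hεpos t j).1.continuous
  have hj0 : (0 : ℝ) ≤ j := Nat.cast_nonneg j
  have hεR : ε j ≤ RR j / 2 := by
    have h1 : RR j / 2 = (1 / 2 : ℝ) ^ (j + 5) := by
      unfold RR
      rw [pow_succ _ (j + 4)]
      ring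
    have h2 : (1 / 2 : ℝ) ^ (j + 5) = Real.exp (-((j + 5 : ℝ) * Real.log 2)) := by
      rw [Real.exp_neg, mul_comm, Real.exp_mul, Real.exp_log (by norm_num), one_div, inv_pow]
      norm_cast
    rw [h1, h2, hε]
    apply Real.exp_le_exp.2
    have := log_two_le
    nlinarith
  have hsub : Metric.ball (cc j) (ε j) ⊆ Metric.ball (0 : E) 1 := by
    refine subset_trans ?_ (closedBall_subset j)
    have := RR_pos j
    exact Metric.ball_subset_closedBall.trans (Metric.closedBall_subset_closedBall (by linarith))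
  have hg : Continuous fun x => Real.exp (4 * Real.pi * uu ε t j x ^ 2) :=
    Real.continuous_exp.comp (continuous_const.mul (hcont.pow 2))
  have hint : IntegrableOn (fun x => Real.exp (4 * Real.pi * uu ε t j x ^ 2))
      (Metric.ball (0 : E) 1) :=
    (hg.continuousOn.integrableOn_compact (isCompact_closedBall (0 : E) 1)).mono_set
      Metric.ball_subset_closedBall
  have hlow : ∀ x ∈ Metric.ball (cc j) (ε j),
      Real.exp ((t * mm j) ^ 2 * S j ^ 2) ≤ Real.exp (4 * Real.pi * uu ε t j x ^ 2) := by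
    intro x hx
    rw [Metric.mem_ball, dist_eq_norm] at hx
    have hz : zeta t j x = t := (zeta_inner (t := t) (lt_of_lt_of_le hx hεR)).eq_of_nhds
    have hLS : S j ≤ LL (cc j) (ε j) x := by
      unfold LL ell
      have h1 : Real.log 32 ≤ Real.log (‖x - cc j‖ ^ 2 + 32) :=
        Real.log_le_log (by norm_num) (by nlinarith [norm_nonneg (x - cc j)])
      have h2 : Real.log (‖x - cc j‖ ^ 2 + ε j ^ 2) ≤ Real.log (2 * ε j ^ 2) := by
        have := hεpos j
        exact Real.log_le_log (by positivity) (by nlinarith [norm_nonneg (x - cc j)])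
      have h3 : Real.log (2 * ε j ^ 2) = Real.log 2 - 2 * S j := by
        have := hεpos j
        rw [Real.log_mul (by norm_num) (by positivity), Real.log_pow, hε, Real.log_exp]
        push_cast
        ring
      have h4 : Real.log 32 = 5 * Real.log 2 := by
        rw [show (32 : ℝ) = 2 ^ 5 by norm_num, Real.log_pow]
        norm_num
      have h5 : 0 < Real.log 2 := Real.log_pos (by norm_num)
      linarith
    have hPP : mm j * S j ≤ PP ε j x := by
      unfold PP
      have := mul_le_mul_of_nonneg_left hLS (mm_pos j).le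
      linarith
    have hS0 : 0 ≤ S j := by linarith
    have hm0 := mm_pos j
    have hu : t * mm j * S j ≤ uu ε t j x := by
      rw [uu, hz, mul_assoc]
      exact mul_le_mul_of_nonneg_left hPP ht.le
    apply Real.exp_le_exp.2
    have h5 : (t * mm j * S j) ^ 2 ≤ uu ε t j x ^ 2 := pow_le_pow_left₀ (by positivity) hu 2
    have h6 := Real.pi_gt_three
    have h7 : 0 ≤ uu ε t j x ^ 2 := sq_nonneg _
    calc (t * mm j) ^ 2 * S j ^ 2 = (t * mm j * S j) ^ 2 := by ring
      _ ≤ uu ε t j x ^ 2 := h5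
      _ ≤ 4 * Real.pi * uu ε t j x ^ 2 := by nlinarith
  have hfin : volume (Metric.ball (cc j) (ε j)) ≠ ⊤ := measure_ball_lt_top.ne
  have hvol : (volume (Metric.ball (cc j) (ε j))).toReal = ε j ^ 2 * Real.pi := by
    rw [EuclideanSpace.volume_ball_fin_two, ENNReal.toReal_mul,
      ENNReal.toReal_pow, ENNReal.toReal_ofReal (hεpos j).le, ENNReal.toReal_ofReal Real.pi_pos.le]
  have h1 : ε j ^ 2 * Real.pi * Real.exp ((t * mm j) ^ 2 * S j ^ 2) ≤
      ∫ x in Metric.ball (cc j) (ε j), Real.exp (4 * Real.pi * uu ε t j x ^ 2) := by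
    rw [← hvol]
    have := setIntegral_mono_on (μ := volume) (integrableOn_const hfin)
      (hint.mono_set hsub) measurableSet_ball hlow
    rw [setIntegral_const, smul_eq_mul] at this
    exact this
  have h2 : ∫ x in Metric.ball (cc j) (ε j), Real.exp (4 * Real.pi * uu ε t j x ^ 2) ≤
      ∫ x in Metric.ball (0 : E) 1, Real.exp (4 * Real.pi * uu ε t j x ^ 2) :=
    setIntegral_mono_set hint (Eventually.of_forall fun x => (Real.exp_pos _).le)
      (LE.le.eventuallyLE hsub)
  have h3 : (j : ℝ) ≤ ε j ^ 2 * Real.pi * Real.exp ((t * mm j) ^ 2 * S j ^ 2) := by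
    have e1 : ε j ^ 2 = Real.exp (-(2 * S j)) := by
      rw [hε, ← Real.exp_nat_mul]
      congr 1
      push_cast
      ring
    have e2 : Real.exp (-(2 * S j)) * Real.exp ((t * mm j) ^ 2 * S j ^ 2) =
        Real.exp (((t * mm j) ^ 2 * S j - 2) * S j) := by
      rw [← Real.exp_add]
      congr 1
      ring
    have e3 : (j : ℝ) ≤ ((t * mm j) ^ 2 * S j - 2) * S j := by
      have hS0 : 1 ≤ S j := by linarith
      nlinarith
    have e4 := Real.add_one_le_exp (((t * mm j) ^ 2 * S j - 2) * S j)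
    have e5 := Real.pi_gt_three
    rw [e1]
    calc (j : ℝ) ≤ Real.exp (((t * mm j) ^ 2 * S j - 2) * S j) := by linarith
      _ ≤ Real.pi * Real.exp (((t * mm j) ^ 2 * S j - 2) * S j) := by
        have := Real.exp_pos (((t * mm j) ^ 2 * S j - 2) * S j)
        nlinarith
      _ = _ := by
        rw [← e2]
        ring
  linarith

theorem lintegral_log_ne_top :
    ∫⁻ y in Metric.ball (0 : E) 1, ENNReal.ofReal (Real.log (1 / ‖y‖)) ≠ ⊤ := by
  have h1 : IntegrableOn (fun y : E => Real.log (1 / ‖y‖)) (Metric.ball 0 1) := by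
    rw [integrableOn_fun_norm_addHaar (volume : Measure E) (f := fun y => Real.log (1 / y))]
    have h2 : Module.finrank ℝ E - 1 = 1 := by
      simp [E]
    rw [h2]
    have h3 : Continuous fun y : ℝ => -(y * Real.log y) := Real.continuous_mul_log.neg
    have h4 : IntegrableOn (fun y : ℝ => -(y * Real.log y)) (Ioo 0 1) :=
      (h3.continuousOn.integrableOn_compact isCompact_Icc).mono_set Ioo_subset_Icc_self
    refine h4.congr_fun (fun y _ => ?_) measurableSet_Ioo
    simp
  have h2 := h1.lintegral_lt_top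
  exact h2.ne

theorem localKato {V : E → ℝ} (hV : Measurable V) {Ω : Set E}
    (hb : ∀ K ⊆ Ω, IsCompact K → ∃ M : ℝ, 0 ≤ M ∧ ∀ x ∈ K, |V x| ≤ M) : LocalKato Ω V := by
  refine ⟨hV, fun K hK hKc => ?_⟩
  obtain ⟨M, hM0, hM⟩ := hb K hK hKc
  have hlim : Tendsto (fun r : ℝ => ENNReal.ofReal M * ∫⁻ y in Metric.ball (0 : E) r,
      (Metric.ball (0 : E) 1).indicator (fun y => ENNReal.ofReal (Real.log (1 / ‖y‖))) y)
      (𝓝[>] 0) (𝓝 0) := by
    have h1 : ∫⁻ y : E, (Metric.ball (0 : E) 1).indicator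
        (fun y => ENNReal.ofReal (Real.log (1 / ‖y‖))) y ≠ ⊤ := by
      rw [lintegral_indicator measurableSet_ball]
      exact lintegral_log_ne_top
    have h2 : Tendsto ((volume : Measure E) ∘ fun r : ℝ => Metric.ball (0 : E) r)
        (𝓝[>] 0) (𝓝 0) := by
      have h3 : ∀ r : ℝ, ((volume : Measure E) ∘ fun r : ℝ => Metric.ball (0 : E) r) r =
          ENNReal.ofReal r ^ 2 * ENNReal.ofReal Real.pi := by
        intro r
        exact EuclideanSpace.volume_ball_fin_two 0 r
      rw [funext h3]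
      have h4 : Tendsto (fun r : ℝ => ENNReal.ofReal r ^ 2 * ENNReal.ofReal Real.pi) (𝓝 0)
          (𝓝 (ENNReal.ofReal 0 ^ 2 * ENNReal.ofReal Real.pi)) :=
        ENNReal.Tendsto.mul_const
          (((ENNReal.continuous_pow 2).comp ENNReal.continuous_ofReal).tendsto 0)
          (Or.inr ENNReal.ofReal_ne_top)
      simp only [ENNReal.ofReal_zero, ne_eq, OfNat.ofNat_ne_zero, not_false_eq_true, zero_pow,
        zero_mul] at h4
      exact h4.mono_left nhdsWithin_le_nhds
    have h5 := tendsto_setLIntegral_zero h1 h2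
    have h6 := ENNReal.Tendsto.const_mul (a := ENNReal.ofReal M) h5
      (Or.inr ENNReal.ofReal_ne_top)
    rw [mul_zero] at h6
    exact h6
  refine tendsto_of_tendsto_of_tendsto_of_le_of_le' tendsto_const_nhds hlim
    (Eventually.of_forall fun _ => bot_le) ?_
  have hr1 : ∀ᶠ r : ℝ in 𝓝[>] 0, r < 1 := nhdsWithin_le_nhds (gt_mem_nhds one_pos)
  filter_upwards [hr1] with r hr
  refine iSup_le fun x => ?_
  calc ∫⁻ y in K ∩ Metric.ball x r, ENNReal.ofReal (Real.log (1 / ‖x - y‖) * |V y|)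
      ≤ ∫⁻ y in K ∩ Metric.ball x r, ENNReal.ofReal M *
        ENNReal.ofReal (Real.log (1 / ‖x - y‖)) := by
        refine setLIntegral_mono' (hKc.isClosed.measurableSet.inter measurableSet_ball)
          fun y hy => ?_
        rw [← ENNReal.ofReal_mul hM0]
        apply ENNReal.ofReal_le_ofReal
        have hxy : ‖x - y‖ < 1 := by
          have := hy.2
          rw [Metric.mem_ball, dist_comm, dist_eq_norm] at this
          linarith
        have hlog : 0 ≤ Real.log (1 / ‖x - y‖) := by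
          rcases (norm_nonneg (x - y)).eq_or_lt with h | h
          · rw [← h]
            simp
          · apply Real.log_nonneg
            rw [le_div_iff₀ h]
            linarith
        rw [mul_comm]
        exact mul_le_mul_of_nonneg_right (hM y hy.1) hlog
    _ ≤ ∫⁻ y in Metric.ball x r, ENNReal.ofReal M *
        ENNReal.ofReal (Real.log (1 / ‖x - y‖)) := lintegral_mono_set inter_subset_right
    _ = ENNReal.ofReal M * ∫⁻ y in Metric.ball x r, ENNReal.ofReal (Real.log (1 / ‖x - y‖)) := by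
        rw [lintegral_const_mul' _ _ ENNReal.ofReal_ne_top]
    _ = ENNReal.ofReal M * ∫⁻ y in Metric.ball (0 : E) r,
        ENNReal.ofReal (Real.log (1 / ‖y‖)) := by
        congr 1
        rw [← lintegral_indicator measurableSet_ball, ← lintegral_indicator measurableSet_ball,
          ← lintegral_add_left_eq_self (μ := (volume : Measure E))
            ((Metric.ball x r).indicator fun y => ENNReal.ofReal (Real.log (1 / ‖x - y‖))) x]
        refine lintegral_congr fun y => ?_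
        simp only [indicator, Metric.mem_ball, dist_eq_norm, add_sub_cancel_left, sub_zero,
          sub_add_cancel_left, norm_neg]
    _ ≤ _ := by
        refine mul_le_mul' le_rfl (setLIntegral_mono' measurableSet_ball fun y hy => ?_)
        rw [indicator_of_mem (Metric.ball_subset_ball hr.le hy)]

/-- The remainder-term Trudinger-Moser inequality fails on the unit disc for a nonnegative,
locally bounded (hence local Kato class) potential `V` with weakly coercive `Q_V`. -/
theorem result : ∃ V : E → ℝ, (∀ x, 0 ≤ V x) ∧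
    (∀ K ⊆ Metric.ball (0 : E) 1, IsCompact K → ∃ M : ℝ, 0 ≤ M ∧ ∀ x ∈ K, |V x| ≤ M) ∧
    LocalKato (Metric.ball 0 1) V ∧ WeaklyCoercive (Metric.ball 0 1) V ∧
    ∀ M : ℝ, ∃ u : E → ℝ, IsTest (Metric.ball 0 1) u ∧ Q (Metric.ball 0 1) V u ≤ 1 ∧
      M ≤ ∫ x in Metric.ball (0 : E) 1, Real.exp (4 * Real.pi * u x ^ 2) := by
  obtain ⟨M, hM0, hM⟩ := exists_bump_bound
  set t : ℝ := 1 / (8 * (M + 1)) with ht
  have ht0 : 0 < t := by positivity
  have htM : t * M ≤ 1 / 8 := by
    rw [ht, div_mul_eq_mul_div, div_le_div_iff₀ (by positivity) (by norm_num)]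
    linarith
  set S : ℕ → ℝ := fun j => ((j : ℝ) + 5) + (2 + (j : ℝ)) / (t * mm j) ^ 2 with hS
  have hκ : ∀ j, 0 < (t * mm j) ^ 2 := fun j => by
    have := mm_pos j
    positivity
  have hS1 : ∀ j : ℕ, (j : ℝ) + 5 ≤ S j := by
    intro j
    have h1 : 0 ≤ (2 + (j : ℝ)) / (t * mm j) ^ 2 := by
      have := hκ j
      positivity
    simp only [hS]
    linarith
  have hS2 : ∀ j : ℕ, 2 + (j : ℝ) ≤ (t * mm j) ^ 2 * S j := by
    intro j
    have h1 := hκ j
    have h2 : (2 + (j : ℝ)) / (t * mm j) ^ 2 ≤ S j := by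
      simp only [hS]
      have : (0 : ℝ) ≤ j := Nat.cast_nonneg j
      linarith
    rw [div_le_iff₀ h1] at h2
    linarith
  set ε : ℕ → ℝ := fun i => Real.exp (-S i) with hε
  have h0 : ∀ j, 0 < ε j := fun j => Real.exp_pos _
  have h1 : ∀ j, ε j ≤ 1 := by
    intro j
    rw [hε]
    apply Real.exp_le_one_iff.2
    have := hS1 j
    have h2 : (0 : ℝ) ≤ j := Nat.cast_nonneg j
    linarith
  refine ⟨VV ε, VV_nonneg h0 h1, fun K hK hKc => VV_locally_bounded h0 h1 hKc hK,
    localKato (VV_measurable h0 h1) fun K hK hKc => VV_locally_bounded h0 h1 hKc hK,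
    weaklyCoercive h0 h1, fun A => ?_⟩
  obtain ⟨j, hj⟩ := exists_nat_ge A
  refine ⟨uu ε t j, uu_test h0 t j, (uu_energy h0 h1 hM ht0.le j).trans ?_,
    hj.trans (uu_exp ht0 j (hS1 j) (hS2 j))⟩
  have h3 : (t * M) ^ 2 ≤ (1 / 8) ^ 2 := pow_le_pow_left₀ (by positivity) htM 2
  have h4 := Real.pi_lt_four
  have h5 := Real.pi_pos
  nlinarith

end Pool.Agent.Results.MP_ed80cb_an.DiskCounterexample
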